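import Mathlib

set_option autoImplicit false

/-!
# Definable relations in rings, in a form convenient for proofs

`IsTm f`: the function `f : (α → R) → R` is given by a term of the language of rings.
`Def P`: the predicate `P : (α → R) → Prop` is given by a formula of the language of rings
(without parameters).
-/

namespace Pool.Agent.LibH36.RingUndec

open FirstOrder Language Ring

variable {R : Type} [CommRing R] [CompatibleRing R]

/-- `f` is given by a term. -/
def IsTm {α : Type} (f : (α → R) → R) : Prop :=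
  ∃ t : Language.ring.Term α, ∀ v, t.realize v = f v

/-- `P` is given by a formula. -/
def Def {α : Type} (P : (α → R) → Prop) : Prop :=
  ∃ φ : Language.ring.Formula α, ∀ v, φ.Realize v ↔ P v

namespace IsTm

variable {α β : Type} {f g : (α → R) → R}

theorem var (i : α) : IsTm (fun v : α → R => v i) := ⟨Term.var i, fun _ => rfl⟩

theorem zero : IsTm (fun _ : α → R => 0) := ⟨0, fun v => realize_zero v⟩

theorem one : IsTm (fun _ : α → R => 1) := ⟨1, fun v => realize_one v⟩

theorem add (hf : IsTm f) (hg : IsTm g) : IsTm (fun v => f v + g v) := by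
  obtain ⟨s, hs⟩ := hf
  obtain ⟨t, ht⟩ := hg
  exact ⟨s + t, fun v => by rw [realize_add, hs, ht]⟩

theorem mul (hf : IsTm f) (hg : IsTm g) : IsTm (fun v => f v * g v) := by
  obtain ⟨s, hs⟩ := hf
  obtain ⟨t, ht⟩ := hg
  exact ⟨s * t, fun v => by rw [realize_mul, hs, ht]⟩

theorem neg (hf : IsTm f) : IsTm (fun v => -f v) := by
  obtain ⟨s, hs⟩ := hf
  exact ⟨-s, fun v => by rw [realize_neg, hs]⟩

theorem sub (hf : IsTm f) (hg : IsTm g) : IsTm (fun v => f v - g v) := by
  simpa only [sub_eq_add_neg] using hf.add hg.neg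

theorem pow (hf : IsTm f) (n : ℕ) : IsTm (fun v => f v ^ n) := by
  induction n with
  | zero => simpa only [pow_zero] using one
  | succ n ih => simpa only [pow_succ] using ih.mul hf

theorem natCast (n : ℕ) : IsTm (fun _ : α → R => (n : R)) := by
  induction n with
  | zero => simpa only [Nat.cast_zero] using zero
  | succ n ih => simpa only [Nat.cast_succ] using ih.add one

theorem intCast (n : ℤ) : IsTm (fun _ : α → R => (n : R)) := by
  rcases n with n | n
  · simpa using natCast n
  · simpa only [Int.cast_negSucc] using (natCast (n + 1)).neg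

theorem ofNat (n : ℕ) [n.AtLeastTwo] : IsTm (fun _ : α → R => (OfNat.ofNat n : R)) := by
  have h := natCast (R := R) (α := α) (OfNat.ofNat n)
  simpa only [Nat.cast_ofNat] using h

/-- Substitution of terms in a term. -/
theorem comp {f : (α → R) → R} (hf : IsTm f) {g : α → (β → R) → R} (hg : ∀ i, IsTm (g i)) :
    IsTm (fun v => f (fun i => g i v)) := by
  obtain ⟨s, hs⟩ := hf
  choose t ht using hg
  refine ⟨s.subst t, fun v => ?_⟩
  rw [Term.realize_subst, hs]
  simp only [ht]

/-- Renaming of variables. -/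
theorem ren (hf : IsTm f) (e : α → β) : IsTm (fun v : β → R => f (fun i => v (e i))) :=
  hf.comp fun i => var (e i)

/-- Weakening. -/
theorem wk (hf : IsTm f) : IsTm (fun v : Option α → R => f (fun i => v (some i))) :=
  hf.ren some

end IsTm

namespace Def

variable {α β : Type} {f g : (α → R) → R} {P Q : (α → R) → Prop}

theorem of_iff (h : Def P) (h' : ∀ v, P v ↔ Q v) : Def Q := by
  obtain ⟨φ, hφ⟩ := h
  exact ⟨φ, fun v => (hφ v).trans (h' v)⟩

theorem eq (hf : IsTm f) (hg : IsTm g) : Def (fun v => f v = g v) := by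
  obtain ⟨s, hs⟩ := hf
  obtain ⟨t, ht⟩ := hg
  refine ⟨s.equal t, fun v => ?_⟩
  rw [Formula.realize_equal, hs, ht]

theorem not (h : Def P) : Def (fun v => ¬ P v) := by
  obtain ⟨φ, hφ⟩ := h
  exact ⟨φ.not, fun v => by rw [Formula.realize_not, hφ]⟩

theorem and (h : Def P) (h' : Def Q) : Def (fun v => P v ∧ Q v) := by
  obtain ⟨φ, hφ⟩ := h
  obtain ⟨ψ, hψ⟩ := h'
  exact ⟨φ ⊓ ψ, fun v => by rw [Formula.realize_inf, hφ, hψ]⟩

theorem or (h : Def P) (h' : Def Q) : Def (fun v => P v ∨ Q v) := by
  obtain ⟨φ, hφ⟩ := h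
  obtain ⟨ψ, hψ⟩ := h'
  exact ⟨φ ⊔ ψ, fun v => by rw [Formula.realize_sup, hφ, hψ]⟩

theorem imp (h : Def P) (h' : Def Q) : Def (fun v => P v → Q v) := by
  obtain ⟨φ, hφ⟩ := h
  obtain ⟨ψ, hψ⟩ := h'
  exact ⟨φ.imp ψ, fun v => by rw [Formula.realize_imp, hφ, hψ]⟩

theorem iff (h : Def P) (h' : Def Q) : Def (fun v => P v ↔ Q v) := by
  obtain ⟨φ, hφ⟩ := h
  obtain ⟨ψ, hψ⟩ := h'
  exact ⟨φ.iff ψ, fun v => by rw [Formula.realize_iff, hφ, hψ]⟩

theorem ne (hf : IsTm f) (hg : IsTm g) : Def (fun v => f v ≠ g v) := (eq hf hg).not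

/-- Substitution of terms in a formula. -/
theorem comp {P : (α → R) → Prop} (h : Def P) {g : α → (β → R) → R} (hg : ∀ i, IsTm (g i)) :
    Def (fun v => P (fun i => g i v)) := by
  obtain ⟨φ, hφ⟩ := h
  choose t ht using hg
  refine ⟨BoundedFormula.subst φ t, fun v => ?_⟩
  rw [Formula.Realize, BoundedFormula.realize_subst]
  have := hφ (fun i => g i v)
  rw [Formula.Realize] at this
  simp only [ht]
  exact this

/-- Substitution of a term in a unary predicate. -/
theorem comp₁ {C : R → Prop} (h : Def (fun v : Fin 1 → R => C (v 0))) (hf : IsTm f) :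
    Def (fun v => C (f v)) :=
  h.comp (g := fun _ => f) fun _ => hf

/-- Substitution of terms in a binary predicate. -/
theorem comp₂ {C : R → R → Prop} (h : Def (fun v : Fin 2 → R => C (v 0) (v 1))) (hf : IsTm f)
    (hg : IsTm g) : Def (fun v => C (f v) (g v)) := by
  refine h.comp (g := ![f, g]) fun i => ?_
  fin_cases i
  · exact hf
  · exact hg

/-- Substitution of terms in a ternary predicate. -/
theorem comp₃ {C : R → R → R → Prop} (h : Def (fun v : Fin 3 → R => C (v 0) (v 1) (v 2)))
    {k : (α → R) → R} (hf : IsTm f) (hg : IsTm g) (hk : IsTm k) :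
    Def (fun v => C (f v) (g v) (k v)) := by
  refine h.comp (g := ![f, g, k]) fun i => ?_
  fin_cases i
  · exact hf
  · exact hg
  · exact hk

/-- Finite tuples of existential quantifiers. -/
theorem exs {γ : Type} [Finite γ] {P : (α → R) → (γ → R) → Prop}
    (h : Def (fun w : α ⊕ γ → R => P (fun i => w (Sum.inl i)) (fun i => w (Sum.inr i)))) :
    Def (fun v => ∃ y : γ → R, P v y) := by
  obtain ⟨φ, hφ⟩ := h
  refine ⟨φ.iExs γ, fun v => ?_⟩
  rw [Formula.realize_iExs]
  refine exists_congr fun y => ?_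
  rw [hφ]
  rfl

theorem ex {P : (α → R) → R → Prop}
    (h : Def (fun w : Option α → R => P (fun i => w (some i)) (w none))) :
    Def (fun v => ∃ x, P v x) := by
  have h1 : Def (fun w : α ⊕ Fin 1 → R => P (fun i => w (Sum.inl i)) (w (Sum.inr 0))) :=
    h.comp (β := α ⊕ Fin 1)
      (g := fun o w => match o with
        | some i => w (Sum.inl i)
        | none => w (Sum.inr 0))
      (fun o => by
        cases o with
        | none => exact IsTm.var (Sum.inr 0)
        | some i => exact IsTm.var (Sum.inl i))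
  have h2 := exs (γ := Fin 1) (P := fun v y => P v (y 0)) h1
  refine h2.of_iff fun v => ⟨fun ⟨y, hy⟩ => ⟨y 0, hy⟩, fun ⟨x, hx⟩ => ⟨fun _ => x, hx⟩⟩

theorem all {P : (α → R) → R → Prop}
    (h : Def (fun w : Option α → R => P (fun i => w (some i)) (w none))) :
    Def (fun v => ∀ x, P v x) := by
  have h1 : Def (fun v => ¬ ∃ x, ¬ P v x) := (ex (P := fun v x => ¬ P v x) h.not).not
  exact h1.of_iff fun v => by simp

/-- Finite conjunctions. -/
theorem allFin {γ : Type} [Finite γ] {P : γ → (α → R) → Prop} (h : ∀ i, Def (P i)) :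
    Def (fun v => ∀ i, P i v) := by
  choose φ hφ using h
  exact ⟨Formula.iInf φ, fun v => by simp only [Formula.realize_iInf, hφ]⟩

theorem const (p : Prop) : Def (fun _ : α → R => p) := by
  by_cases hp : p
  · exact (eq (α := α) (R := R) IsTm.zero IsTm.zero).of_iff fun v => by simp [hp]
  · exact ((eq (α := α) (R := R) IsTm.zero IsTm.zero).not).of_iff fun v => by simp [hp]

theorem dvd (hf : IsTm f) (hg : IsTm g) : Def (fun v => f v ∣ g v) := by
  have h : Def (fun v => ∃ c, g v = f v * c) :=
    ex (P := fun v c => g v = f v * c) (eq hg.wk (hf.wk.mul (IsTm.var none)))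
  exact h

theorem isUnit (hf : IsTm f) : Def (fun v => IsUnit (f v)) := by
  have h : Def (fun v => f v ∣ 1) := dvd hf IsTm.one
  exact h.of_iff fun v => isUnit_iff_dvd_one.symm

/-- Bounded universal quantifier over a definable predicate, relation form. -/
theorem all₂ {C : R → Prop} {P : (α → R) → R → Prop}
    (hC : Def (fun v : Fin 1 → R => C (v 0)))
    (h : Def (fun w : Option α → R => P (fun i => w (some i)) (w none))) :
    Def (fun v => ∀ x, C x → P v x) :=
  all (P := fun v x => C x → P v x) ((hC.comp₁ (IsTm.var none)).imp h)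

end Def

end Pool.Agent.LibH36.RingUndec
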