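import Pool.Agent.Lib_helper36.MRDP
import Pool.Agent.Lib_helper36.RingUndec.Def

set_option autoImplicit false

/-!
# Undecidability of rings in which `ℤ` is definable

Let `R` be a commutative ring of characteristic zero and suppose that the set of integers is
defined in `R` by a formula of the language of rings.  Then the theory of `R` is undecidable, for
the Gödel numbering obtained from any injective coding of the five function symbols.
-/

namespace Pool.Agent.LibH36.RingUndec

open FirstOrder Language Ring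

/-- The numeral `n` as a term. -/
def numeral {α : Type} : ℕ → Language.ring.Term α
  | 0 => 0
  | n + 1 => 1 + numeral n

section

variable {R : Type} [CommRing R] [CompatibleRing R]

theorem realize_numeral {α : Type} (n : ℕ) (v : α → R) :
    (numeral n : Language.ring.Term α).realize v = (n : R) := by
  induction n with
  | zero => simp [numeral]
  | succ n ih => simp [numeral, ih, add_comm]

theorem poly_term {γ : Type} (p : Poly γ) : ∃ t : Language.ring.Term γ,
    ∀ v : γ → ℕ, t.realize (fun i => (v i : R)) = ((p v : ℤ) : R) := by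
  induction p using Poly.induction with
  | H1 i => exact ⟨Term.var i, fun v => by simp⟩
  | H2 n =>
    rcases n with n | n
    · exact ⟨numeral n, fun v => by rw [realize_numeral]; simp⟩
    · exact ⟨-numeral (n + 1), fun v => by rw [realize_neg, realize_numeral]; simp⟩
  | H3 f g hf hg =>
    obtain ⟨s, hs⟩ := hf
    obtain ⟨t, ht⟩ := hg
    exact ⟨s + -t, fun v => by rw [realize_add, realize_neg, hs, ht]; simp [sub_eq_add_neg]⟩
  | H4 f g hf hg =>
    obtain ⟨s, hs⟩ := hf
    obtain ⟨t, ht⟩ := hg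
    exact ⟨s * t, fun v => by rw [realize_mul, hs, ht]; simp⟩

/-- The natural numbers are definable if the integers are. -/
theorem def_nat (h : Def (fun v : Fin 1 → R => ∃ n : ℤ, v 0 = n)) :
    Def (fun v : Fin 1 → R => ∃ n : ℕ, v 0 = n) := by
  have hI : ∀ {α : Type} {f : (α → R) → R}, IsTm f → Def (fun v => ∃ n : ℤ, f v = n) :=
    fun hf => Def.comp₁ (C := fun x : R => ∃ n : ℤ, x = n) h hf
  have h1 : Def (fun v : Fin 1 → R => ∃ y : Fin 4 → R,
      (∀ i, ∃ n : ℤ, y i = n) ∧ v 0 = y 0 ^ 2 + y 1 ^ 2 + y 2 ^ 2 + y 3 ^ 2) := by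
    refine Def.exs (P := fun (v : Fin 1 → R) (y : Fin 4 → R) => (∀ i, ∃ n : ℤ, y i = n) ∧
      v 0 = y 0 ^ 2 + y 1 ^ 2 + y 2 ^ 2 + y 3 ^ 2) ?_
    refine Def.and ?_ ?_
    · exact Def.allFin fun i => hI (IsTm.var _)
    · refine Def.eq (IsTm.var (Sum.inl 0)) ?_
      exact ((((IsTm.var (Sum.inr 0)).pow 2).add ((IsTm.var (Sum.inr 1)).pow 2)).add
        ((IsTm.var (Sum.inr 2)).pow 2)).add ((IsTm.var (Sum.inr 3)).pow 2)
  refine h1.of_iff fun v => ?_
  constructor
  · rintro ⟨y, hy, hv⟩
    choose n hn using hy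
    refine ⟨(n 0 ^ 2 + n 1 ^ 2 + n 2 ^ 2 + n 3 ^ 2).toNat, ?_⟩
    have hpos : 0 ≤ n 0 ^ 2 + n 1 ^ 2 + n 2 ^ 2 + n 3 ^ 2 := by positivity
    have e : (((n 0 ^ 2 + n 1 ^ 2 + n 2 ^ 2 + n 3 ^ 2).toNat : ℕ) : R)
        = ((((n 0 ^ 2 + n 1 ^ 2 + n 2 ^ 2 + n 3 ^ 2).toNat : ℕ) : ℤ) : R) := by
      rw [Int.cast_natCast]
    rw [e, Int.toNat_of_nonneg hpos, hv]
    simp only [hn]
    push_cast
    ring
  · rintro ⟨m, hm⟩
    obtain ⟨a, b, c, d, h4⟩ := Nat.sum_four_squares m
    refine ⟨![(a : R), b, c, d], ?_, ?_⟩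
    · intro i
      fin_cases i
      · exact ⟨a, by simp⟩
      · exact ⟨b, by simp⟩
      · exact ⟨c, by simp⟩
      · exact ⟨d, by simp⟩
    · rw [hm, ← h4]
      simp

/-- Diophantine sets are definable in `R`. -/
theorem def_dioph [CharZero R] (h : Def (fun v : Fin 1 → R => ∃ n : ℤ, v 0 = n)) {K : ℕ → Prop}
    (hK : Dioph {v : Unit → ℕ | K (v ())}) :
    ∃ C : R → Prop, Def (fun v : Fin 1 → R => C (v 0)) ∧ ∀ n : ℕ, C n ↔ K n := by
  classical
  have hN := def_nat h
  obtain ⟨β, p, hp⟩ := hK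
  obtain ⟨t, ht⟩ := poly_term (R := R) p
  let C : R → Prop := fun x => ∃ y : {i // i ∈ t.varFinset} → R,
    (∀ i : {i // i ∈ t.varFinset}, (∃ m : ℕ, y i = m) ∧ (i.1 = Sum.inl () → y i = x)) ∧
      (t.restrictVar id).realize y = 0
  refine ⟨C, ?_, ?_⟩
  · refine Def.exs (P := fun (v : Fin 1 → R) y =>
      (∀ i : {i // i ∈ t.varFinset}, (∃ m : ℕ, y i = m) ∧ (i.1 = Sum.inl () → y i = v 0)) ∧
      (t.restrictVar id).realize y = 0) ?_
    refine Def.and ?_ ?_
    · refine Def.allFin fun i => ?_
      refine Def.and ?_ ?_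
      · exact Def.comp₁ (C := fun x : R => ∃ m : ℕ, x = m) hN (IsTm.var _)
      · exact (Def.const _).imp (Def.eq (IsTm.var _) (IsTm.var _))
    · refine Def.eq ?_ IsTm.zero
      exact IsTm.ren (f := fun y => (t.restrictVar id).realize y) ⟨t.restrictVar id, fun _ => rfl⟩
        Sum.inr
  · intro n
    constructor
    · rintro ⟨y, hy, h0⟩
      choose m hm using fun i => (hy i).1
      let w : Unit ⊕ β → ℕ := fun i => if hi : i ∈ t.varFinset then m ⟨i, hi⟩ else
        Sum.elim (fun _ => n) (fun _ => 0) i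
      have hw : w (Sum.inl ()) = n := by
        by_cases hi : Sum.inl () ∈ t.varFinset
        · have h1 : w (Sum.inl ()) = m ⟨Sum.inl (), hi⟩ := dif_pos hi
          have h2 := (hy ⟨Sum.inl (), hi⟩).2 rfl
          rw [hm] at h2
          rw [h1]
          exact_mod_cast h2
        · have h1 : w (Sum.inl ()) = n := dif_neg hi
          exact h1
      have h3 : (t.restrictVar id).realize y = t.realize (fun i => (w i : R)) := by
        refine Term.realize_restrictVar _ fun a => ?_
        have : w a = m a := dif_pos a.2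
        rw [this, id, hm]
      rw [h3, ht] at h0
      have h4 : p w = 0 := by exact_mod_cast h0
      have h5 := (hp fun _ => n).2 ⟨fun i => w (Sum.inr i), ?_⟩
      · exact h5
      · rw [← h4]
        congr 1
        funext i
        rcases i with i | i
        · simp [hw]
        · simp
    · intro hn
      obtain ⟨t', ht'⟩ := (hp fun _ => n).1 hn
      refine ⟨fun i => ((Sum.elim (fun _ => n) t' : Unit ⊕ β → ℕ) i.1 : R), ?_, ?_⟩
      · intro i
        refine ⟨⟨_, rfl⟩, fun hi => ?_⟩
        simp [hi]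
      · have h3 : (t.restrictVar id).realize
            (fun i => ((Sum.elim (fun _ => n) t' : Unit ⊕ β → ℕ) i.1 : R))
            = t.realize (fun i => ((Sum.elim (fun _ => n) t' : Unit ⊕ β → ℕ) i : R)) :=
          Term.realize_restrictVar _ fun a => rfl
        rw [h3, ht]
        have : p (Sum.elim (fun _ => n) t') = 0 := ht'
        rw [this]
        simp

end

end Pool.Agent.LibH36.RingUndec
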