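import Pool.Agent.Lib_helper36.RingUndec.Formula

set_option autoImplicit false

/-!
# The easy direction: integers satisfy the formula
-/

namespace Pool.Agent.LibH36.RingUndec

section

variable {R : Type} [CommRing R]

theorem AA_one {c z : R} (hc : c ^ 4 - c ^ 2 + 1 = 0) : AA c z 1 := by
  have h2 : (1 - c ^ 2) * c ^ 2 = 1 := by linear_combination -hc
  have h1 : (1 - c) * ((1 + c) * c ^ 2) = 1 := by linear_combination -hc
  exact ⟨isUnit_one, IsUnit.of_mul_eq_one _ h1, IsUnit.of_mul_eq_one _ h2, by simp⟩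

theorem AA_pow {c z : R} (hc : c ^ 4 - c ^ 2 + 1 = 0) (hP : PP c z) (m : ℕ) :
    AA c z (z ^ m) := by
  induction m with
  | zero => simpa using AA_one hc
  | succ m ih => rw [pow_succ]; exact (hP.2 _ ih).1

theorem AA_inv_pow {c z w : R} (hc : c ^ 4 - c ^ 2 + 1 = 0) (hP : PP c z) (hw : w * z = 1)
    (m : ℕ) : AA c z (w ^ m) := by
  induction m with
  | zero => simpa using AA_one hc
  | succ m ih =>
    refine (hP.2 _ ih).2 _ ?_
    rw [pow_succ, mul_assoc, hw, mul_one]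

theorem sq_dvd_pow (z : R) (m : ℕ) : (z - 1) ^ 2 ∣ (m : R) * (z - 1) - (z ^ m - 1) := by
  induction m with
  | zero => simp
  | succ m ih =>
    have h1 : (z - 1) ∣ z ^ m - 1 := by simpa using sub_dvd_pow_sub_pow z 1 m
    have h2 : ((m + 1 : ℕ) : R) * (z - 1) - (z ^ (m + 1) - 1)
        = ((m : R) * (z - 1) - (z ^ m - 1)) - (z - 1) * (z ^ m - 1) := by
      push_cast; ring
    rw [h2]
    refine dvd_sub ih ?_
    rw [pow_two]
    exact mul_dvd_mul_left _ h1

theorem exists_power {c z : R} (hc : c ^ 4 - c ^ 2 + 1 = 0) (hP : PP c z) (n : ℤ) :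
    ∃ y, AA c z y ∧ (z - 1) ^ 2 ∣ (n : R) * (z - 1) - (y - 1) := by
  obtain ⟨m, rfl | rfl⟩ := n.eq_nat_or_neg
  · exact ⟨z ^ m, AA_pow hc hP m, by simpa using sq_dvd_pow z m⟩
  · obtain ⟨w, hw⟩ := hP.1.exists_left_inv
    refine ⟨w ^ m, AA_inv_pow hc hP hw m, ?_⟩
    obtain ⟨q, hq⟩ := sq_dvd_pow z m
    have h1 : (z - 1) ∣ z ^ m - 1 := by simpa using sub_dvd_pow_sub_pow z 1 m
    obtain ⟨s, hs⟩ := h1
    have hwz : w ^ m * z ^ m = 1 := by rw [← mul_pow, hw, one_pow]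
    refine ⟨-(m : R) * w ^ m * s - w ^ m * q, ?_⟩
    push_cast
    have e1 : w ^ m - 1 = -(w ^ m * (z ^ m - 1)) := by
      linear_combination hwz
    linear_combination ((m : R) * (z - 1) - 1) * e1 - w ^ m * hq
      - (m : R) * (z - 1) * w ^ m * hs

/-- The easy direction. -/
theorem FF_int {c : R} (hc : c ^ 4 - c ^ 2 + 1 = 0) (n : ℤ) : FF (n : R) :=
  ⟨c, hc, fun _ hP => exists_power hc hP n⟩

end

end Pool.Agent.LibH36.RingUndec
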