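import Pool.Agent.Lib_helper36.RingUndec.Def

set_option autoImplicit false

/-!
# The formula of helper93 defining `ℤ` in `ℤ^ab` (for MP_d409f8_lc)
-/

namespace Pool.Agent.LibH36.RingUndec

open FirstOrder Language Ring

variable {R : Type} [CommRing R] [CompatibleRing R]

/-- `u`, `u - c`, `u - c²` are units and `z - 1` divides `u - 1`. -/
def AA (c z u : R) : Prop := IsUnit u ∧ IsUnit (u - c) ∧ IsUnit (u - c ^ 2) ∧ (z - 1) ∣ (u - 1)

/-- `z` is a unit and `AA c z` is closed under multiplication by `z` and by `z⁻¹`. -/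
def PP (c z : R) : Prop :=
  IsUnit z ∧ ∀ u, AA c z u → AA c z (u * z) ∧ ∀ w, w * z = u → AA c z w

/-- The defining formula of `ℤ`. -/
def FF (x : R) : Prop :=
  ∃ c : R, c ^ 4 - c ^ 2 + 1 = 0 ∧
    ∀ z, PP c z → ∃ y, AA c z y ∧ (z - 1) ^ 2 ∣ x * (z - 1) - (y - 1)

theorem def_AA {α : Type} {c z u : (α → R) → R} (hc : IsTm c) (hz : IsTm z) (hu : IsTm u) :
    Def (fun v => AA (c v) (z v) (u v)) :=
  (Def.isUnit hu).and ((Def.isUnit (hu.sub hc)).and ((Def.isUnit (hu.sub (hc.pow 2))).and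
    (Def.dvd (hz.sub IsTm.one) (hu.sub IsTm.one))))

theorem def_PP {α : Type} {c z : (α → R) → R} (hc : IsTm c) (hz : IsTm z) :
    Def (fun v => PP (c v) (z v)) := by
  refine (Def.isUnit hz).and (Def.all (P := fun v u =>
    AA (c v) (z v) u → AA (c v) (z v) (u * z v) ∧ ∀ w, w * z v = u → AA (c v) (z v) w) ?_)
  refine (def_AA hc.wk hz.wk (IsTm.var none)).imp
    ((def_AA hc.wk hz.wk ((IsTm.var none).mul hz.wk)).and ?_)
  refine Def.all (P := fun v w => w * z (fun i => v (some i)) = v none →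
    AA (c fun i => v (some i)) (z fun i => v (some i)) w) ?_
  exact (Def.eq ((IsTm.var none).mul hz.wk.wk) (IsTm.var (some none))).imp
    (def_AA hc.wk.wk hz.wk.wk (IsTm.var none))

theorem def_FF : Def (fun v : Fin 1 → R => FF (v 0)) := by
  refine Def.ex (P := fun v c => c ^ 4 - c ^ 2 + 1 = 0 ∧
    ∀ z, PP c z → ∃ y, AA c z y ∧ (z - 1) ^ 2 ∣ v 0 * (z - 1) - (y - 1)) ?_
  have hn : IsTm (fun w : Option (Fin 1) → R => w none) := IsTm.var none
  refine (Def.eq (((hn.pow 4).sub (hn.pow 2)).add IsTm.one) IsTm.zero).and ?_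
  refine Def.all (P := fun w z => PP (w none) z → ∃ y, AA (w none) z y ∧
    (z - 1) ^ 2 ∣ w (some 0) * (z - 1) - (y - 1)) ?_
  refine (def_PP (IsTm.var (some none)) (IsTm.var none)).imp ?_
  refine Def.ex (P := fun w y => AA (w (some none)) (w none) y ∧
    (w none - 1) ^ 2 ∣ w (some (some 0)) * (w none - 1) - (y - 1)) ?_
  refine (def_AA (IsTm.var (some (some none))) (IsTm.var (some none)) (IsTm.var none)).and ?_
  exact Def.dvd (((IsTm.var (some none)).sub IsTm.one).pow 2)
    (((IsTm.var (some (some (some 0)))).mul ((IsTm.var (some none)).sub IsTm.one)).sub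
      ((IsTm.var none).sub IsTm.one))

end Pool.Agent.LibH36.RingUndec
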