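import Mathlib

set_option autoImplicit false

/-!
# The last step: an element of `ℤ^ab` congruent to an integer modulo `1 - ζ_p` for all large `p`
is an integer
-/

namespace Pool.Agent.LibH36.RingUndec

open Polynomial

/-- The field generated by the roots of unity. -/
noncomputable def Fab : Subfield ℂ := Subfield.closure {z : ℂ | ∃ n : ℕ, 0 < n ∧ z ^ n = 1}

theorem Fab_algebraic : Algebra.IsAlgebraic ℚ Fab := by
  refine ⟨fun x => ?_⟩
  have h : Fab ≤ (algebraicClosure ℚ ℂ).toSubfield := by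
    refine Subfield.closure_le.2 ?_
    rintro z ⟨n, hn, hz⟩
    show z ∈ algebraicClosure ℚ ℂ
    rw [mem_algebraicClosure_iff]
    refine ⟨X ^ n - C 1, (monic_X_pow_sub_C 1 hn.ne').ne_zero, ?_⟩
    simp [hz]
  have hx : (x : ℂ) ∈ algebraicClosure ℚ ℂ := h x.2
  rw [mem_algebraicClosure_iff] at hx
  have e : (x : ℂ) = algebraMap Fab ℂ x := rfl
  rw [e] at hx
  exact (isAlgebraic_algebraMap_iff (algebraMap Fab ℂ).injective).1 hx

/-- `p` divides `(1 - ζ)^(p-1)` among the algebraic integers. -/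
theorem dvd_one_sub_pow {p : ℕ} (hp : p.Prime) {ζ : ℂ} (hζ : IsPrimitiveRoot ζ p) :
    ∃ b : ℂ, IsIntegral ℤ b ∧ (1 - ζ) ^ (p - 1) = p * b := by
  have hζi : IsIntegral ℤ ζ := hζ.isIntegral hp.pos
  -- p is the product of the `1 - ζ'`
  have h1 : (p : ℂ) = ∏ μ ∈ primitiveRoots p ℂ, (1 - μ) := by
    have h2 := congrArg (eval 1) (cyclotomic_eq_prod_X_sub_primitiveRoots hζ)
    have := Fact.mk hp
    rw [eval_one_cyclotomic_prime, eval_prod] at h2
    simpa using h2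
  have hcard : (primitiveRoots p ℂ).card = p - 1 := by
    rw [hζ.card_primitiveRoots, Nat.totient_prime hp]
  -- each factor divides `1 - ζ`
  have h3 : ∀ μ ∈ primitiveRoots p ℂ, ∃ b : ℂ, IsIntegral ℤ b ∧ 1 - ζ = (1 - μ) * b := by
    intro μ hμ
    have hμ' : IsPrimitiveRoot μ p := isPrimitiveRoot_of_mem_primitiveRoots hμ
    have hμi : IsIntegral ℤ μ := hμ'.isIntegral hp.pos
    have : NeZero p := ⟨hp.ne_zero⟩
    obtain ⟨i, -, hi⟩ := hμ'.eq_pow_of_pow_eq_one hζ.pow_eq_one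
    refine ⟨∑ j ∈ Finset.range i, μ ^ j, ?_, ?_⟩
    · exact IsIntegral.sum _ fun j _ => hμi.pow j
    · rw [mul_comm, geom_sum_mul_neg, hi]
  choose! b hb hb' using h3
  refine ⟨∏ μ ∈ primitiveRoots p ℂ, b μ, IsIntegral.prod _ fun μ hμ => hb μ hμ, ?_⟩
  rw [h1, ← Finset.prod_mul_distrib, ← hcard, ← Finset.prod_const]
  exact Finset.prod_congr rfl fun μ hμ => hb' μ hμ

/-- A rational algebraic integer. -/
theorem int_of_isIntegral_rat {q : ℚ} (h : IsIntegral ℤ (q : ℂ)) : ∃ n : ℤ, q = n := by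
  have h1 : IsIntegral ℤ q := by
    have e : (q : ℂ) = algebraMap ℚ ℂ q := rfl
    rw [e] at h
    exact (isIntegral_algebraMap_iff (algebraMap ℚ ℂ).injective).1 h
  obtain ⟨n, hn⟩ := IsIntegrallyClosed.isIntegral_iff.1 h1
  exact ⟨n, by simpa using hn.symm⟩

/-- Divisibility of integers by a prime, tested in the ring of algebraic integers. -/
theorem dvd_of_dvd_algInt {p : ℕ} (hp : p.Prime) {N : ℤ} {e : ℕ} {b : ℂ} (hb : IsIntegral ℤ b)
    (h : (N : ℂ) ^ e = p * b) : (p : ℤ) ∣ N := by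
  have hp0 : (p : ℂ) ≠ 0 := by exact_mod_cast hp.ne_zero
  have hbq : b = (((N : ℚ) ^ e / p : ℚ) : ℂ) := by
    push_cast
    rw [eq_div_iff hp0, h]
    ring
  rw [hbq] at hb
  obtain ⟨n, hn⟩ := int_of_isIntegral_rat hb
  have hp0' : (p : ℚ) ≠ 0 := by exact_mod_cast hp.ne_zero
  rw [div_eq_iff hp0'] at hn
  have h2 : N ^ e = n * p := by exact_mod_cast hn
  have h3 : (p : ℤ) ∣ N ^ e := ⟨n, by rw [h2]; ring⟩
  exact (Nat.prime_iff_prime_int.1 hp).dvd_of_dvd_pow h3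

theorem isIntegral_of_int_rat {y : ℂ} (hy : IsIntegral ℤ y) : IsIntegral ℚ y := hy.tower_top

/-- An algebraic integer divisible by `1 - ζ_p` for infinitely many primes `p` is zero. -/
theorem eq_zero_of_forall_prime {y : ℂ} (hy : IsIntegral ℤ y) {p₀ : ℕ}
    (h : ∀ p : ℕ, p.Prime → p₀ ≤ p → ∃ (ζ b : ℂ), IsPrimitiveRoot ζ p ∧ IsIntegral ℤ b ∧
      y = (1 - ζ) * b) : y = 0 := by
  by_contra hy0
  set N : ℤ := (minpoly ℤ y).coeff 0 with hN
  have hN0 : N ≠ 0 := by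
    intro h0
    have h1 := minpoly.isIntegrallyClosed_eq_field_fractions' ℚ hy
    have h2 : (minpoly ℚ y).coeff 0 ≠ 0 :=
      minpoly.coeff_zero_ne_zero (isIntegral_of_int_rat hy) hy0
    apply h2
    rw [h1, coeff_map, ← hN, h0, map_zero]
  -- `y` divides `N`
  obtain ⟨c, hc, hyc⟩ : ∃ c : ℂ, IsIntegral ℤ c ∧ (N : ℂ) = y * c := by
    have h1 := minpoly.aeval ℤ y
    rw [← divX_mul_X_add (minpoly ℤ y)] at h1
    simp only [map_add, map_mul, aeval_X, aeval_C] at h1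
    refine ⟨-aeval y (divX (minpoly ℤ y)), ?_, ?_⟩
    · refine IsIntegral.neg ?_
      exact IsIntegral.of_mem_of_fg (Algebra.adjoin ℤ {y}) hy.fg_adjoin_singleton _
        (aeval_mem_adjoin_singleton ℤ y)
    · have h2 : (algebraMap ℤ ℂ) N = N := rfl
      rw [← hN, h2] at h1
      linear_combination h1
  have hdvd : ∀ p : ℕ, p.Prime → p₀ ≤ p → (p : ℤ) ∣ N := by
    intro p hp hp7
    obtain ⟨ζ, b, hζ, hb, hyb⟩ := h p hp hp7
    obtain ⟨d, hd, hd'⟩ := dvd_one_sub_pow hp hζ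
    refine dvd_of_dvd_algInt hp (e := p - 1) (b := d * b ^ (p - 1) * c ^ (p - 1)) ?_ ?_
    · exact (hd.mul (hb.pow _)).mul (hc.pow _)
    · rw [hyc, hyb, mul_pow, mul_pow, hd']
      ring
  obtain ⟨p, hp1, hp2⟩ := Nat.exists_infinite_primes (max p₀ (N.natAbs + 1))
  have h1 := hdvd p hp2 (le_of_max_le_left hp1)
  have h2 := Int.le_of_dvd (by positivity) ((dvd_abs _ _).2 h1)
  have h3 : N.natAbs + 1 ≤ p := le_of_max_le_right hp1
  rw [Int.abs_eq_natAbs] at h2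
  omega

/-- The last step. -/
theorem int_of_forall_prime {x : ℂ} (hx : IsIntegral ℤ x) (hxF : x ∈ Fab) {p₀ : ℕ}
    (h : ∀ p : ℕ, p.Prime → p₀ ≤ p → ∃ (ζ a : ℂ) (k : ℤ), IsPrimitiveRoot ζ p ∧
      IsIntegral ℤ a ∧ a ∈ Fab ∧ x - k = (1 - ζ) * a) : ∃ n : ℤ, x = n := by
  have := Fab_algebraic
  have hinv : ∀ τ : Fab →ₐ[ℚ] ℂ, τ ⟨x, hxF⟩ = x := by
    intro τ
    have hτi : ∀ a : Fab, IsIntegral ℤ (a : ℂ) → IsIntegral ℤ (τ a) := by
      intro a ha
      have e : (a : ℂ) = algebraMap Fab ℂ a := rfl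
      rw [e] at ha
      have h1 : IsIntegral ℤ a := (isIntegral_algebraMap_iff (algebraMap Fab ℂ).injective).1 ha
      exact h1.map (τ.restrictScalars ℤ)
    have h0 : x - τ ⟨x, hxF⟩ = 0 := by
      refine eq_zero_of_forall_prime (p₀ := p₀) (hx.sub (hτi _ hx)) ?_
      intro p hp hp0
      obtain ⟨ζ, a, k, hζ, ha, haF, hxa⟩ := h p hp hp0
      have hζF : ζ ∈ Fab := Subfield.subset_closure ⟨p, hp.pos, hζ.pow_eq_one⟩
      have hζi : IsIntegral ℤ ζ := hζ.isIntegral hp.pos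
      have h1 : τ ⟨x, hxF⟩ - k = (1 - τ ⟨ζ, hζF⟩) * τ ⟨a, haF⟩ := by
        have h2 : (⟨x, hxF⟩ : Fab) - (k : Fab) = (1 - ⟨ζ, hζF⟩) * ⟨a, haF⟩ := by
          apply Subtype.ext
          push_cast
          exact hxa
        have h3 := congrArg τ h2
        simpa using h3
      have h4 : (τ ⟨ζ, hζF⟩) ^ p = 1 := by
        rw [← map_pow]
        have : (⟨ζ, hζF⟩ : Fab) ^ p = 1 := by
          apply Subtype.ext
          push_cast
          exact hζ.pow_eq_one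
        rw [this, map_one]
      have : NeZero p := ⟨hp.ne_zero⟩
      obtain ⟨j, -, hj⟩ := hζ.eq_pow_of_pow_eq_one h4
      refine ⟨ζ, a - (∑ i ∈ Finset.range j, ζ ^ i) * τ ⟨a, haF⟩, hζ, ?_, ?_⟩
      · exact ha.sub ((IsIntegral.sum _ fun i _ => hζi.pow i).mul (hτi _ ha))
      · have h5 : 1 - ζ ^ j = (1 - ζ) * ∑ i ∈ Finset.range j, ζ ^ i := by
          rw [mul_comm, geom_sum_mul_neg]
        rw [← hj, h5] at h1
        linear_combination hxa - h1
    exact (sub_eq_zero.1 h0).symm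
  -- `x` has only one conjugate
  have hset := Algebra.IsAlgebraic.range_eval_eq_rootSet_minpoly (F := ℚ) (A := ℂ)
    (⟨x, hxF⟩ : Fab)
  have hint : IsIntegral ℚ (⟨x, hxF⟩ : Fab) := (Algebra.IsAlgebraic.isAlgebraic _).isIntegral
  have hirr := minpoly.irreducible hint
  have hsep : (minpoly ℚ (⟨x, hxF⟩ : Fab)).Separable := hirr.separable
  have hcard : Fintype.card ((minpoly ℚ (⟨x, hxF⟩ : Fab)).rootSet ℂ)
      = (minpoly ℚ (⟨x, hxF⟩ : Fab)).natDegree :=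
    card_rootSet_eq_natDegree hsep (IsAlgClosed.splits _)
  have hone : Fintype.card ((minpoly ℚ (⟨x, hxF⟩ : Fab)).rootSet ℂ) ≤ 1 := by
    rw [Fintype.card_le_one_iff_subsingleton]
    refine ⟨?_⟩
    rintro ⟨a, ha⟩ ⟨b, hb⟩
    rw [← hset] at ha hb
    obtain ⟨τ, hτ⟩ := ha
    obtain ⟨τ', hτ'⟩ := hb
    apply Subtype.ext
    show a = b
    rw [← hτ, ← hτ']
    show τ _ = τ' _
    rw [hinv, hinv]
  have hdeg : (minpoly ℚ (⟨x, hxF⟩ : Fab)).natDegree = 1 := by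
    have h1 := minpoly.natDegree_pos hint
    omega
  obtain ⟨q, hq⟩ : ∃ q : ℚ, algebraMap ℚ Fab q = ⟨x, hxF⟩ := by
    have h1 := minpoly.mem_range_of_degree_eq_one ℚ (⟨x, hxF⟩ : Fab)
      ((degree_eq_iff_natDegree_eq_of_pos one_pos).2 hdeg)
    obtain ⟨q, hq⟩ := h1
    exact ⟨q, hq⟩
  have hxq : x = (q : ℂ) := by
    have h1 := congrArg (algebraMap Fab ℂ) hq
    have h2 : algebraMap Fab ℂ ⟨x, hxF⟩ = x := rfl
    rw [h2] at h1
    rw [← h1]
    simp
  rw [hxq] at hx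
  obtain ⟨n, hn⟩ := int_of_isIntegral_rat hx
  exact ⟨n, by rw [hxq, hn]; simp⟩

end Pool.Agent.LibH36.RingUndec
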