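import Pool.Agent.Lib_helper36.RingUndec.Basic

set_option autoImplicit false

/-!
# Undecidability of rings in which `ℤ` is definable: the computability part
-/

namespace Pool.Agent.LibH36.RingUndec

open FirstOrder Language Ring

/-- The Gödel number of a sentence of the language of rings (the one used in S15409). -/
noncomputable def gnum (e : (Σ i, Language.ring.Functions i) → ℕ) (φ : Language.ring.Sentence) : ℕ :=
  Encodable.encode
    (φ.listEncode.map
      (Sum.map
        (fun t => (⟨t.1, t.2.listEncode.map (Sum.map id e)⟩ :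
          Σ k : ℕ, List ((Empty ⊕ Fin k) ⊕ ℕ)))
        (Sum.map (fun r => r.1) id)))

theorem gnum_injective {e : (Σ i, Language.ring.Functions i) → ℕ} (he : Function.Injective e) :
    Function.Injective (gnum e) := by
  intro φ ψ h
  have h1 := Encodable.encode_injective h
  have hinj : Function.Injective (Sum.map
      (fun t : (Σ k : ℕ, Language.ring.Term (Empty ⊕ Fin k)) =>
        (⟨t.1, t.2.listEncode.map (Sum.map id e)⟩ : Σ k : ℕ, List ((Empty ⊕ Fin k) ⊕ ℕ)))
      (Sum.map (fun r : (Σ n, Language.ring.Relations n) => r.1) (id : ℕ → ℕ))) := by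
    refine Function.Injective.sumMap ?_ ?_
    · rintro ⟨k, t⟩ ⟨k', t'⟩ h
      obtain ⟨hk, ht⟩ := Sigma.mk.inj_iff.1 h
      simp only at hk
      subst hk
      have h2 := eq_of_heq ht
      have h3 : t.listEncode = t'.listEncode :=
        (List.map_injective_iff.2 (Function.Injective.sumMap Function.injective_id he)) h2
      have h4 : t = t' := Term.listEncode_injective h3
      rw [h4]
    · refine Function.Injective.sumMap ?_ Function.injective_id
      rintro ⟨n, r⟩
      exact (IsEmpty.false (α := Empty) r).elim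
  have h2 := (List.map_injective_iff.2 hinj) h1
  have h3 := BoundedFormula.listEncode_sigma_injective (L := Language.ring) (α := Empty)
    (a₁ := ⟨0, φ⟩) (a₂ := ⟨0, ψ⟩) h2
  exact eq_of_heq (Sigma.mk.inj_iff.1 h3).2

/-- The sentence `∀ x, x = n → χ(x)`. -/
def sent (χ : Language.ring.BoundedFormula Empty 1) (n : ℕ) : Language.ring.Sentence :=
  (BoundedFormula.imp (BoundedFormula.equal (Term.var (Sum.inr 0)) (numeral n)) χ).all

/-- The code of a numeral. -/
noncomputable def tcode (e : (Σ i, Language.ring.Functions i) → ℕ) (n : ℕ) : ℕ :=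
  Encodable.encode ((numeral n : Language.ring.Term (Empty ⊕ Fin 1)).listEncode.map
    (Sum.map id e))

theorem tcode_zero (e : (Σ i, Language.ring.Functions i) → ℕ) :
    tcode e 0 = Nat.succ (Nat.pair
      (Encodable.encode (Sum.inr (e ⟨0, zeroFunc⟩) : (Empty ⊕ Fin 1) ⊕ ℕ)) 0) := rfl

theorem listEncode_numeral_succ {α : Type} (n : ℕ) :
    (numeral (n + 1) : Language.ring.Term α).listEncode
      = Sum.inr ⟨2, addFunc⟩ :: Sum.inr ⟨0, oneFunc⟩ :: (numeral n).listEncode := by
  have h : (numeral (n + 1) : Language.ring.Term α)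
      = Term.func addFunc ![Constants.term oneFunc, numeral n] := rfl
  rw [h, Term.listEncode]
  have h2 : List.finRange 2 = [0, 1] := rfl
  rw [h2]
  simp only [List.flatMap_cons, List.flatMap_nil, List.append_nil, Matrix.cons_val_zero,
    Matrix.cons_val_one]
  rfl

theorem tcode_succ (e : (Σ i, Language.ring.Functions i) → ℕ) (n : ℕ) :
    tcode e (n + 1) = Nat.succ (Nat.pair
      (Encodable.encode (Sum.inr (e ⟨2, addFunc⟩) : (Empty ⊕ Fin 1) ⊕ ℕ))
      (Nat.succ (Nat.pair (Encodable.encode (Sum.inr (e ⟨0, oneFunc⟩) : (Empty ⊕ Fin 1) ⊕ ℕ))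
        (tcode e n)))) := by
  unfold tcode
  rw [listEncode_numeral_succ]
  rfl

theorem tcode_primrec (e : (Σ i, Language.ring.Functions i) → ℕ) : Primrec (tcode e) := by
  have h : ∀ n, tcode e n = Nat.rec (tcode e 0) (fun _ c => Nat.succ (Nat.pair
      (Encodable.encode (Sum.inr (e ⟨2, addFunc⟩) : (Empty ⊕ Fin 1) ⊕ ℕ))
      (Nat.succ (Nat.pair (Encodable.encode (Sum.inr (e ⟨0, oneFunc⟩) : (Empty ⊕ Fin 1) ⊕ ℕ))
        c)))) n := by
    intro n
    induction n with
    | zero => rfl
    | succ n ih => rw [tcode_succ, ih]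
  have h2 : Primrec (Nat.rec (tcode e 0) (fun _ c => Nat.succ (Nat.pair
      (Encodable.encode (Sum.inr (e ⟨2, addFunc⟩) : (Empty ⊕ Fin 1) ⊕ ℕ))
      (Nat.succ (Nat.pair (Encodable.encode (Sum.inr (e ⟨0, oneFunc⟩) : (Empty ⊕ Fin 1) ⊕ ℕ))
        c)))) : ℕ → ℕ) := by
    refine Primrec.nat_rec₁ _ ?_
    refine Primrec.succ.comp (Primrec₂.natPair.comp (Primrec.const _) ?_)
    exact Primrec.succ.comp (Primrec₂.natPair.comp (Primrec.const _) Primrec.snd)
  exact h2.of_eq fun n => (h n).symm

theorem gnum_sent (e : (Σ i, Language.ring.Functions i) → ℕ)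
    (χ : Language.ring.BoundedFormula Empty 1) :
    ∃ f : ℕ → ℕ, Primrec f ∧ ∀ n, gnum e (sent χ n) = f (tcode e n) := by
  let g : (Σ k, Language.ring.Term (Empty ⊕ Fin k)) ⊕ ((Σ n, Language.ring.Relations n) ⊕ ℕ) →
      (Σ k : ℕ, List ((Empty ⊕ Fin k) ⊕ ℕ)) ⊕ (ℕ ⊕ ℕ) :=
    Sum.map (fun t => (⟨t.1, t.2.listEncode.map (Sum.map id e)⟩ :
          Σ k : ℕ, List ((Empty ⊕ Fin k) ⊕ ℕ))) (Sum.map (fun r => r.1) id)
  let c1 : ℕ := Encodable.encode (g (Sum.inr (Sum.inr 1)))
  let c2 : ℕ := Encodable.encode (g (Sum.inr (Sum.inr 0)))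
  let c3 : ℕ := Encodable.encode (g (Sum.inl ⟨1, Term.var (Sum.inr 0)⟩))
  let c5 : ℕ := Encodable.encode (χ.listEncode.map g)
  refine ⟨fun c => Nat.succ (Nat.pair c1 (Nat.succ (Nat.pair c2 (Nat.succ (Nat.pair c3
    (Nat.succ (Nat.pair (2 * Nat.pair 1 c) c5))))))), ?_, fun n => rfl⟩
  refine Primrec.succ.comp (Primrec₂.natPair.comp (Primrec.const _) ?_)
  refine Primrec.succ.comp (Primrec₂.natPair.comp (Primrec.const _) ?_)
  refine Primrec.succ.comp (Primrec₂.natPair.comp (Primrec.const _) ?_)
  refine Primrec.succ.comp (Primrec₂.natPair.comp ?_ (Primrec.const _))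
  exact Primrec.nat_mul.comp (Primrec.const 2) (Primrec₂.natPair.comp (Primrec.const 1) Primrec.id)

theorem exists_re_not_computable : ∃ K : ℕ → Prop, REPred K ∧ ¬ ComputablePred K := by
  refine ⟨fun m => (Nat.Partrec.Code.eval (Denumerable.ofNat Nat.Partrec.Code m) 0).Dom, ?_, ?_⟩
  · exact Partrec.comp (ComputablePred.halting_problem_re 0) (Computable.ofNat Nat.Partrec.Code)
  · intro h
    refine ComputablePred.halting_problem 0 (ComputablePred.computable_of_manyOneReducible ?_ h)
    exact ⟨Encodable.encode, Computable.encode, fun c => by simp⟩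

variable {R : Type} [CommRing R] [CompatibleRing R] [CharZero R]

/-- **Undecidability**: if `ℤ` is definable in the commutative ring `R` of characteristic zero,
then the set of Gödel numbers of the sentences true in `R` is not computable. -/
theorem not_computable_of_def (h : Def (fun v : Fin 1 → R => ∃ n : ℤ, v 0 = n))
    {e : (Σ i, Language.ring.Functions i) → ℕ} (he : Function.Injective e) :
    ¬ ComputablePred (fun n : ℕ => ∃ φ : Language.ring.Sentence, gnum e φ = n ∧
      Sentence.Realize R φ) := by
  obtain ⟨K, hre, hK⟩ := exists_re_not_computable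
  obtain ⟨C, ⟨ψ, hψ⟩, hC⟩ := def_dioph h (MRDP.re_dioph hre)
  let χ : Language.ring.BoundedFormula Empty 1 :=
    BoundedFormula.relabel (n := 1) (k := 0) (fun _ : Fin 1 => Sum.inr 0) ψ
  have hsent : ∀ n, Sentence.Realize R (sent χ n) ↔ K n := by
    intro n
    rw [← hC n]
    have h1 : ∀ (v : Empty → R) (x : R), χ.Realize v (fun _ : Fin 1 => x) ↔ C x := by
      intro v x
      have h2 : ψ.Realize (fun _ => x) ↔ C x := hψ (fun _ => x)
      rw [BoundedFormula.realize_relabel, ← h2, Formula.Realize]
      exact iff_of_eq (congrArg₂ _ rfl (Subsingleton.elim _ _))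
    constructor
    · intro hs
      have h3 := hs (n : R)
      have h4 : (BoundedFormula.equal (Term.var (Sum.inr 0)) (numeral n) :
          Language.ring.BoundedFormula Empty 1).Realize (default : Empty → R)
            (Fin.snoc default (n : R)) := by
        show Term.realize _ _ = Term.realize _ _
        rw [realize_numeral]
        rfl
      have h5 := h3 h4
      have h6 : (Fin.snoc (default : Fin 0 → R) (n : R) : Fin 1 → R) = fun _ => (n : R) := by
        funext i
        have hi : i = Fin.last 0 := Fin.ext (by omega)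
        rw [hi]
        exact Fin.snoc_last _ _
      rw [← h1 default]
      rw [← h6]
      exact h5
    · intro hs x hx
      have hx' : Term.realize (Sum.elim (default : Empty → R) (Fin.snoc default x : Fin 1 → R))
          (Term.var (Sum.inr 0) : Language.ring.Term (Empty ⊕ Fin 1))
          = Term.realize (Sum.elim (default : Empty → R) (Fin.snoc default x : Fin 1 → R))
            (numeral n) := hx
      rw [realize_numeral] at hx'
      have hx2 : x = n := hx'
      have h6 : (Fin.snoc (default : Fin 0 → R) x : Fin 1 → R) = fun _ => x := by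
        funext i
        have hi : i = Fin.last 0 := Fin.ext (by omega)
        rw [hi]
        exact Fin.snoc_last _ _
      show χ.Realize default (Fin.snoc default x)
      rw [h6, h1, hx2]
      exact hs
  intro hP
  apply hK
  refine ComputablePred.computable_of_manyOneReducible (q := fun n : ℕ =>
    ∃ φ : Language.ring.Sentence, gnum e φ = n ∧ Sentence.Realize R φ) ?_ hP
  obtain ⟨f, hf, hfe⟩ := gnum_sent e χ
  refine ⟨fun n => f (tcode e n), (hf.comp (tcode_primrec e)).to_comp, fun n => ?_⟩
  rw [← hsent n]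
  constructor
  · intro hs
    exact ⟨sent χ n, hfe n, hs⟩
  · rintro ⟨φ, hφ, hr⟩
    have : φ = sent χ n := gnum_injective he (hφ.trans (hfe n).symm)
    rw [← this]
    exact hr

/-- The form used in S15409. -/
theorem not_computable_subring (A : Subring ℂ)
    (h : letI := compatibleRingOfRing A
      Def (fun v : Fin 1 → A => ∃ n : ℤ, v 0 = n))
    (e : (Σ i, FirstOrder.Language.ring.Functions i) → ℕ) (he : Function.Injective e) :
    ¬ ComputablePred (fun n : ℕ =>
      ∃ φ : FirstOrder.Language.ring.Sentence,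
        Encodable.encode
            (φ.listEncode.map
              (Sum.map
                (fun t => (⟨t.1, t.2.listEncode.map (Sum.map id e)⟩ :
                  Σ k : ℕ, List ((Empty ⊕ Fin k) ⊕ ℕ)))
                (Sum.map (fun r => r.1) id))) = n ∧
        @FirstOrder.Language.Sentence.Realize FirstOrder.Language.ring ↥A
          (FirstOrder.Ring.compatibleRingOfRing ↥A).toStructure φ) := by
  letI := compatibleRingOfRing A
  exact not_computable_of_def h he

end Pool.Agent.LibH36.RingUndec
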